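import Mathlib

/-!
Definitions for varieties of Lie algebras (MP_eb02d8_al).
A variety is given by a set `T` of Lie polynomials in the variables `x_0, x_1, ...`
(elements of the free Lie algebra on `ℕ`); its members are the algebras satisfying all of `T`.
-/

namespace Pool.Agent.Lib.MP_eb02d8_al

universe u v

/-- `L` satisfies every identity `f = 0`, `f ∈ T`. -/
def Sat (k : Type u) [Field k] (T : Set (FreeLieAlgebra k ℕ)) (L : Type v) [LieRing L]
    [LieAlgebra k L] : Prop :=
  ∀ f ∈ T, ∀ a : ℕ → L, FreeLieAlgebra.lift k a f = 0

/-- The variety defined by `T` is solvable: all members have derived length at most some `n`. -/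
def SolvableVariety (k : Type u) [Field k] (T : Set (FreeLieAlgebra k ℕ)) : Prop :=
  ∃ n : ℕ, ∀ (L : Type u) [LieRing L] [LieAlgebra k L], Sat k T L →
    LieAlgebra.derivedSeries k L n = ⊥

/-- The variety defined by `T` is locally solvable: all finitely generated members are solvable. -/
def LocallySolvableVariety (k : Type u) [Field k] (T : Set (FreeLieAlgebra k ℕ)) : Prop :=
  ∀ (L : Type u) [LieRing L] [LieAlgebra k L], Sat k T L →
    (∃ s : Finset L, LieSubalgebra.lieSpan k L (s : Set L) = ⊤) → LieAlgebra.IsSolvable L

end Pool.Agent.Lib.MP_eb02d8_al
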