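import Pool.Agent.Lib.MP_eb02d8_al.Defs

namespace Pool.Agent.Lib.MP_eb02d8_al

open TensorProduct Polynomial

universe u v w

section basic
variable {k : Type u} [Field k]

theorem hom_lift {X : Type*} {L : Type v} {L' : Type w} [LieRing L] [LieAlgebra k L] [LieRing L']
    [LieAlgebra k L'] (φ : L →ₗ⁅k⁆ L') (a : X → L) (f : FreeLieAlgebra k X) :
    φ (FreeLieAlgebra.lift k a f) = FreeLieAlgebra.lift k (fun i => φ (a i)) f := by
  have : φ.comp (FreeLieAlgebra.lift k a) = FreeLieAlgebra.lift k (fun i => φ (a i)) := by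
    apply FreeLieAlgebra.hom_ext
    intro x
    simp
  exact LieHom.congr_fun this f

/-- The derived words evaluated on a sequence. -/
def dw {L : Type v} [LieRing L] : ℕ → (ℕ → L) → L
  | 0, a => a 0
  | n + 1, a => ⁅dw n (fun i => a (2 * i)), dw n (fun i => a (2 * i + 1))⁆

theorem hom_dw {L : Type v} {L' : Type w} [LieRing L] [LieAlgebra k L] [LieRing L']
    [LieAlgebra k L'] (φ : L →ₗ⁅k⁆ L') (n : ℕ) (a : ℕ → L) :
    φ (dw n a) = dw n (fun i => φ (a i)) := by
  induction n generalizing a with
  | zero => rfl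
  | succ n ih => simp only [dw, LieHom.map_lie, ih]

theorem dw_mem {L : Type v} [LieRing L] [LieAlgebra k L] (n : ℕ) (a : ℕ → L) :
    dw n a ∈ LieAlgebra.derivedSeries k L n := by
  induction n generalizing a with
  | zero => simp
  | succ n ih =>
    rw [LieAlgebra.derivedSeries_def, LieAlgebra.derivedSeriesOfIdeal_succ]
    exact LieSubmodule.lie_mem_lie (ih _) (ih _)

theorem derived_le_span {L : Type v} [LieRing L] [LieAlgebra k L] (n : ℕ) :
    (LieAlgebra.derivedSeries k L n).toSubmodule ≤ Submodule.span k (Set.range (dw n)) := by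
  induction n with
  | zero =>
    intro x _
    exact Submodule.subset_span ⟨fun _ => x, rfl⟩
  | succ n ih =>
    rw [LieAlgebra.derivedSeries_def, LieAlgebra.derivedSeriesOfIdeal_succ,
      LieSubmodule.lieIdeal_oper_eq_linear_span', Submodule.span_le]
    rintro _ ⟨x, hx, y, hy, rfl⟩
    have hx' := ih hx
    have hy' := ih hy
    clear hx hy
    simp only [SetLike.mem_coe]
    induction hx' using Submodule.span_induction with
    | zero => simp
    | add a b _ _ ha hb => rw [add_lie]; exact add_mem ha hb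
    | smul c a _ ha => rw [smul_lie]; exact Submodule.smul_mem _ _ ha
    | mem a ha =>
      induction hy' using Submodule.span_induction with
      | zero => simp
      | add a b _ _ ha hb => rw [lie_add]; exact add_mem ha hb
      | smul c a _ ha => rw [lie_smul]; exact Submodule.smul_mem _ _ ha
      | mem b hb =>
        obtain ⟨a, rfl⟩ := ha
        obtain ⟨b, rfl⟩ := hb
        refine Submodule.subset_span ⟨fun i => if i % 2 = 0 then a (i / 2) else b (i / 2), ?_⟩
        simp only [dw]
        congr 2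
        · funext i
          simp
        · funext i
          have h2 : (2 * i + 1) / 2 = i := by omega
          simp [h2]

theorem derived_eq_bot {L : Type v} [LieRing L] [LieAlgebra k L] (n : ℕ)
    (h : ∀ a : ℕ → L, dw n a = 0) : LieAlgebra.derivedSeries k L n = ⊥ := by
  rw [eq_bot_iff]
  intro x hx
  have h1 := derived_le_span n hx
  have h2 : Submodule.span k (Set.range (dw n : (ℕ → L) → L)) = ⊥ := by
    rw [Submodule.span_eq_bot]
    rintro _ ⟨a, rfl⟩
    exact h a
  rw [h2] at h1
  simpa using h1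

end basic

section coeff
variable {k : Type u} [Field k] {M : Type v} [LieRing M] [LieAlgebra k M]

/-- Contract the polynomial factor with a functional. -/
noncomputable def cf (l : k[X] →ₗ[k] k) : k[X] ⊗[k] M →ₗ[k] M :=
  (TensorProduct.lid k M).toLinearMap ∘ₗ LinearMap.rTensor M l

@[simp] theorem cf_tmul (l : k[X] →ₗ[k] k) (p : k[X]) (m : M) :
    cf l (p ⊗ₜ[k] m) = l p • m := by
  simp [cf]

theorem dual_cf (l : k[X] →ₗ[k] k) (φ : Module.Dual k M) (u : k[X] ⊗[k] M) :
    φ (cf l u) = l (TensorProduct.rid k k[X] (LinearMap.lTensor k[X] φ u)) := by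
  induction u using TensorProduct.induction_on with
  | zero => simp
  | tmul p m => simp [mul_comm]
  | add a b ha hb => simp only [map_add, ha, hb]

theorem cf_eq_zero [Infinite k] (u : k[X] ⊗[k] M) (h : ∀ t : k, cf (Polynomial.leval t) u = 0)
    (l : k[X] →ₗ[k] k) : cf l u = 0 := by
  rw [← Module.forall_dual_apply_eq_zero_iff k]
  intro φ
  rw [dual_cf]
  have : TensorProduct.rid k k[X] (LinearMap.lTensor k[X] φ u) = 0 := by
    apply Polynomial.funext
    intro t
    have := dual_cf (Polynomial.leval t) φ u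
    rw [h t, map_zero] at this
    simpa using this.symm
  rw [this, map_zero]

/-- Evaluation at `t` as a Lie homomorphism. -/
noncomputable def evL (t : k) : k[X] ⊗[k] M →ₗ⁅k⁆ M :=
  { cf (Polynomial.leval t) with
    map_lie' := by
      intro x y
      simp only [AddHom.toFun_eq_coe, LinearMap.coe_toAddHom]
      induction x using TensorProduct.induction_on with
      | zero => simp
      | add a b ha hb => simp only [add_lie, map_add, ha, hb]
      | tmul p m =>
        induction y using TensorProduct.induction_on with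
        | zero => simp
        | add a b ha hb => simp only [lie_add, map_add, ha, hb]
        | tmul q n =>
          simp [LieAlgebra.ExtendScalars.bracket_tmul, smul_smul, mul_comm] }

theorem evL_apply (t : k) (u : k[X] ⊗[k] M) : evL t u = cf (Polynomial.leval t) u := rfl

theorem cf_one_lie (x y : k[X] ⊗[k] M) :
    cf (Polynomial.lcoeff k 1) ⁅x, y⁆ =
      ⁅evL 0 x, cf (Polynomial.lcoeff k 1) y⁆ - ⁅evL 0 y, cf (Polynomial.lcoeff k 1) x⁆ := by
  simp only [evL_apply]
  have e1 : ∀ a b c : k[X] ⊗[k] M, ⁅a + b, c⁆ = ⁅a, c⁆ + ⁅b, c⁆ := fun a b c =>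
    LieRing.add_lie a b c
  have e2 : ∀ a b c : k[X] ⊗[k] M, ⁅a, b + c⁆ = ⁅a, b⁆ + ⁅a, c⁆ := fun a b c =>
    LieRing.lie_add a b c
  have e3 : ∀ a : k[X] ⊗[k] M, ⁅(0 : k[X] ⊗[k] M), a⁆ = 0 := fun a => by
    have := e1 0 0 a
    simpa using this
  have e4 : ∀ a : k[X] ⊗[k] M, ⁅a, (0 : k[X] ⊗[k] M)⁆ = 0 := fun a => by
    have := e2 a 0 0
    simpa using this
  induction x using TensorProduct.induction_on with
  | zero => simp [e3]
  | add a b ha hb => simp only [e1, add_lie, lie_add, map_add, ha, hb]; abel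
  | tmul p m =>
    induction y using TensorProduct.induction_on with
    | zero => simp [e4]
    | add a b ha hb => simp only [e2, add_lie, lie_add, map_add, ha, hb]; abel
    | tmul q n =>
      have h : (p * q).coeff 1 = p.coeff 0 * q.coeff 1 + p.coeff 1 * q.coeff 0 := by
        simp [Polynomial.coeff_mul, Finset.Nat.antidiagonal_succ]
      simp only [LieAlgebra.ExtendScalars.bracket_tmul, cf_tmul, Polynomial.lcoeff_apply, h,
        Polynomial.leval_apply, smul_lie, lie_smul, smul_smul, ← Polynomial.coeff_zero_eq_eval_zero]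
      rw [← lie_skew m n]
      simp only [add_smul, smul_neg]
      module

end coeff

section free
variable (k : Type u) [Field k] (T : Set (FreeLieAlgebra k ℕ))

/-- The ideal of identities of the variety defined by `T`. -/
def idl : LieIdeal k (FreeLieAlgebra k ℕ) where
  carrier := {g | ∀ (L : Type u) [LieRing L] [LieAlgebra k L], Sat k T L →
    ∀ a : ℕ → L, FreeLieAlgebra.lift k a g = 0}
  add_mem' := by
    intro x y hx hy L _ _ hL a
    rw [map_add, hx L hL a, hy L hL a, add_zero]
  zero_mem' := by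
    intro L _ _ hL a
    exact map_zero _
  smul_mem' := by
    intro c x hx L _ _ hL a
    rw [map_smul, hx L hL a, smul_zero]
  lie_mem := by
    intro x y hy L _ _ hL a
    rw [LieHom.map_lie, hy L hL a, lie_zero]

/-- The relatively free algebra. -/
abbrev RF := FreeLieAlgebra k ℕ ⧸ idl k T

/-- The projection. -/
noncomputable def prj : FreeLieAlgebra k ℕ →ₗ⁅k⁆ RF k T :=
  { (idl k T).toSubmodule.mkQ with
    map_lie' := fun {_ _} => rfl }

theorem prj_surj : Function.Surjective (prj k T) := Quot.mk_surjective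

theorem prj_eq_zero {g : FreeLieAlgebra k ℕ} : prj k T g = 0 ↔ g ∈ idl k T :=
  Submodule.Quotient.mk_eq_zero (idl k T).toSubmodule

theorem sat_RF : Sat k T (RF k T) := by
  intro f hf a
  choose b hb using fun i => prj_surj k T (a i)
  have : a = fun i => prj k T (b i) := funext fun i => (hb i).symm
  rw [this, ← hom_lift, prj_eq_zero]
  intro L _ _ hL c
  rw [hom_lift]
  exact hL f hf _

/-- The free generators. -/
noncomputable def gen (i : ℕ) : RF k T := prj k T (FreeLieAlgebra.of k i)

/-- The deformation `x_i ↦ x_i + t x_{i+1}`. -/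
noncomputable def Psi : FreeLieAlgebra k ℕ →ₗ⁅k⁆ k[X] ⊗[k] RF k T :=
  FreeLieAlgebra.lift k (fun i => (1 : k[X]) ⊗ₜ[k] gen k T i + (X : k[X]) ⊗ₜ[k] gen k T (i + 1))

theorem ev_zero_Psi (g : FreeLieAlgebra k ℕ) : evL 0 (Psi k T g) = prj k T g := by
  have : (evL 0).comp (Psi k T) = prj k T := by
    apply FreeLieAlgebra.hom_ext
    intro i
    simp [Psi, evL_apply, gen]
  exact LieHom.congr_fun this g

theorem cf_Psi_eq_zero [Infinite k] {g : FreeLieAlgebra k ℕ} (hg : g ∈ idl k T) :
    cf (Polynomial.lcoeff k 1) (Psi k T g) = 0 := by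
  apply cf_eq_zero
  intro t
  rw [← evL_apply, Psi, hom_lift]
  exact hg _ (sat_RF k T) _

/-- The shift derivation of the relatively free algebra. -/
noncomputable def shift [Infinite k] : LieDerivation k (RF k T) (RF k T) where
  toLinearMap := (idl k T).toSubmodule.liftQ
    (cf (Polynomial.lcoeff k 1) ∘ₗ (Psi k T).toLinearMap) (fun _ hg => cf_Psi_eq_zero k T hg)
  leibniz' := by
    intro a b
    obtain ⟨a, rfl⟩ := prj_surj k T a
    obtain ⟨b, rfl⟩ := prj_surj k T b
    rw [← LieHom.map_lie]
    change cf (Polynomial.lcoeff k 1) (Psi k T ⁅a, b⁆) =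
      ⁅prj k T a, cf (Polynomial.lcoeff k 1) (Psi k T b)⁆ -
        ⁅prj k T b, cf (Polynomial.lcoeff k 1) (Psi k T a)⁆
    rw [LieHom.map_lie, cf_one_lie, ev_zero_Psi, ev_zero_Psi]

theorem shift_gen [Infinite k] (i : ℕ) : shift k T (gen k T i) = gen k T (i + 1) := by
  change cf (Polynomial.lcoeff k 1) (Psi k T (FreeLieAlgebra.of k i)) = _
  simp [Psi, Polynomial.coeff_one]

/-- The two-generated algebra spanned by the shift and the first generator. -/
noncomputable def Bsub [Infinite k] : LieSubalgebra k (LieDerivation k (RF k T) (RF k T)) :=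
  LieSubalgebra.lieSpan k _ {shift k T, LieDerivation.ad k (RF k T) (gen k T 0)}

theorem ad_gen_mem [Infinite k] (i : ℕ) :
    LieDerivation.ad k (RF k T) (gen k T i) ∈ Bsub k T := by
  induction i with
  | zero => exact LieSubalgebra.subset_lieSpan (by simp)
  | succ i ih =>
    rw [← shift_gen, ← LieDerivation.lie_der_ad_eq_ad_der]
    exact LieSubalgebra.lie_mem _ (LieSubalgebra.subset_lieSpan (by simp)) ih

theorem Bsub_form [Infinite k] {D : LieDerivation k (RF k T) (RF k T)} (hD : D ∈ Bsub k T) :
    ∃ (c : k) (m : RF k T), D = c • shift k T + LieDerivation.ad k (RF k T) m := by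
  let S : LieSubalgebra k (LieDerivation k (RF k T) (RF k T)) :=
    { carrier := {D | ∃ (c : k) (m : RF k T), D = c • shift k T + LieDerivation.ad k (RF k T) m}
      add_mem' := by
        rintro _ _ ⟨c, m, rfl⟩ ⟨c', m', rfl⟩
        exact ⟨c + c', m + m', by rw [map_add, add_smul]; abel⟩
      zero_mem' := ⟨0, 0, by simp⟩
      smul_mem' := by
        rintro a _ ⟨c, m, rfl⟩
        exact ⟨a * c, a • m, by rw [map_smul, smul_add, smul_smul]⟩
      lie_mem' := by
        rintro _ _ ⟨c, m, rfl⟩ ⟨c', m', rfl⟩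
        refine ⟨0, c • shift k T m' - c' • shift k T m + ⁅m, m'⁆, ?_⟩
        rw [add_lie, lie_add, lie_add, smul_lie, lie_smul, lie_self, smul_lie, lie_smul,
          ← lie_skew (LieDerivation.ad k (RF k T) m) (shift k T),
          LieDerivation.lie_der_ad_eq_ad_der, LieDerivation.lie_der_ad_eq_ad_der,
          ← LieHom.map_lie, map_add, map_sub, map_smul, map_smul]
        simp only [smul_zero, zero_smul, zero_add, smul_neg]
        abel }
  have : Bsub k T ≤ S := by
    rw [Bsub, LieSubalgebra.lieSpan_le]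
    rintro _ (rfl | rfl)
    · exact ⟨1, 0, by simp⟩
    · exact ⟨0, gen k T 0, by simp⟩
  exact this hD

theorem Bsub_lie_form [Infinite k] (x y : Bsub k T) :
    ∃ m : RF k T, ((⁅x, y⁆ : Bsub k T) : LieDerivation k (RF k T) (RF k T)) =
      LieDerivation.ad k (RF k T) m := by
  obtain ⟨c, m, hx⟩ := Bsub_form k T x.2
  obtain ⟨c', m', hy⟩ := Bsub_form k T y.2
  refine ⟨c • shift k T m' - c' • shift k T m + ⁅m, m'⁆, ?_⟩
  rw [LieSubalgebra.coe_bracket, hx, hy]
  rw [add_lie, lie_add, lie_add, smul_lie, lie_smul, lie_self, smul_lie, lie_smul,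
    ← lie_skew (LieDerivation.ad k (RF k T) m) (shift k T),
    LieDerivation.lie_der_ad_eq_ad_der, LieDerivation.lie_der_ad_eq_ad_der,
    ← LieHom.map_lie, map_add, map_sub, map_smul, map_smul]
  simp only [smul_zero, zero_add, smul_neg]
  abel

theorem solvable_of_Bsub [Infinite k] (h : LieAlgebra.IsSolvable (Bsub k T)) :
    SolvableVariety k T := by
  obtain ⟨r, hr⟩ := (LieAlgebra.isSolvable_iff k _).mp h
  refine ⟨r + 1, ?_⟩
  have key : ∀ s : ℕ → ℕ,
      LieDerivation.ad k (RF k T) (dw r (fun i => gen k T (s i))) = 0 := by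
    intro s
    have h1 := dw_mem (k := k) r
      (fun i => (⟨LieDerivation.ad k (RF k T) (gen k T (s i)), ad_gen_mem k T _⟩ : Bsub k T))
    rw [hr, LieSubmodule.mem_bot] at h1
    have h2 := congrArg (Bsub k T).incl h1
    rw [hom_dw, map_zero] at h2
    rw [hom_dw]
    exact h2
  have h3 : dw (r + 1) (gen k T) = 0 := by
    simp only [dw]
    have := congrArg (fun D : LieDerivation k (RF k T) (RF k T) =>
      D (dw r (fun i => gen k T (2 * i + 1)))) (key (fun i => 2 * i))
    simpa using this
  have h4 : dw (r + 1) (FreeLieAlgebra.of k) ∈ idl k T := by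
    rw [← prj_eq_zero, hom_dw]
    exact h3
  intro L _ _ hL
  apply derived_eq_bot
  intro a
  have := h4 L hL a
  rw [hom_dw] at this
  simpa using this

end free

end Pool.Agent.Lib.MP_eb02d8_al
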