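import Pool.Agent.Lib.MP_eb02d8_al.Shift

namespace Pool.Agent.Lib.MP_eb02d8_al

open LieAlgebra.SpecialLinear

attribute [local instance 100] LieRing.ofAssociativeRing

universe u

variable (k : Type u) [Field k]

/-- The two standard generators of sl2. -/
noncomputable def ef : Fin 2 → sl (Fin 2) k :=
  ![single (0 : Fin 2) 1 (by decide) 1, single (1 : Fin 2) 0 (by decide) 1]

/-- A sum of commutators in two variables with prescribed value on the generators of sl2. -/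
noncomputable def wd {L : Type*} [LieRing L] [LieAlgebra k L] (a b c : k) (x y : L) : L :=
  a • ⁅x, y⁆ + (b / 2) • ⁅⁅x, y⁆, x⁆ - (c / 2) • ⁅⁅x, y⁆, y⁆

theorem hom_wd {L L' : Type*} [LieRing L] [LieAlgebra k L] [LieRing L'] [LieAlgebra k L']
    (φ : L →ₗ⁅k⁆ L') (a b c : k) (x y : L) : φ (wd k a b c x y) = wd k a b c (φ x) (φ y) := by
  simp only [wd, map_add, map_sub, map_smul, LieHom.map_lie]

theorem wd_ef [CharZero k] (u : sl (Fin 2) k) :
    wd k (u.1 0 0) (u.1 0 1) (u.1 1 0) (ef k 0) (ef k 1) = u := by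
  have hu : u.1 1 1 = - u.1 0 0 := by
    have h : Matrix.trace u.1 = 0 := u.2
    rw [Matrix.trace_fin_two] at h
    linear_combination h
  apply Subtype.ext
  have h0 : (ef k 0).1 = !![0, 1; 0, 0] := by
    ext i j; fin_cases i <;> fin_cases j <;> simp [ef]
  have h1 : (ef k 1).1 = !![0, 0; 1, 0] := by
    ext i j; fin_cases i <;> fin_cases j <;> simp [ef]
  have e : (wd k (u.1 0 0) (u.1 0 1) (u.1 1 0) (ef k 0) (ef k 1)).1 =
      u.1 0 0 • (⁅ef k 0, ef k 1⁆).1 + (u.1 0 1 / 2) • (⁅⁅ef k 0, ef k 1⁆, ef k 0⁆).1 -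
        (u.1 1 0 / 2) • (⁅⁅ef k 0, ef k 1⁆, ef k 1⁆).1 := rfl
  rw [e]
  simp only [sl_bracket, h0, h1]
  ext i j
  fin_cases i <;> fin_cases j <;> simp [hu] <;> ring

theorem two_var_of_not_sat [CharZero k] {T : Set (FreeLieAlgebra k ℕ)}
    (hT : ¬ Sat k T (sl (Fin 2) k)) :
    ∃ g : FreeLieAlgebra k (Fin 2), (∃ a : Fin 2 → sl (Fin 2) k, FreeLieAlgebra.lift k a g ≠ 0) ∧
      ∀ a : Fin 2 → Bsub k T, FreeLieAlgebra.lift k a g = 0 := by
  simp only [Sat, not_forall] at hT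
  obtain ⟨f, hf, u, hu⟩ := hT
  refine ⟨FreeLieAlgebra.lift k (fun i => wd k ((u i).1 0 0) ((u i).1 0 1) ((u i).1 1 0)
    (FreeLieAlgebra.of k 0) (FreeLieAlgebra.of k 1)) f, ⟨ef k, ?_⟩, ?_⟩
  · rw [hom_lift]
    simp only [hom_wd, FreeLieAlgebra.lift_of_apply, wd_ef]
    exact hu
  · intro a
    rw [hom_lift]
    simp only [hom_wd, FreeLieAlgebra.lift_of_apply]
    apply Subtype.ext
    have h1 := hom_lift (Bsub k T).incl
      (fun i => wd k ((u i).1 0 0) ((u i).1 0 1) ((u i).1 1 0) (a 0) (a 1)) f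
    obtain ⟨m1, hm1⟩ := Bsub_lie_form k T (a 0) (a 1)
    obtain ⟨m2, hm2⟩ := Bsub_lie_form k T ⁅a 0, a 1⁆ (a 0)
    obtain ⟨m3, hm3⟩ := Bsub_lie_form k T ⁅a 0, a 1⁆ (a 1)
    have h2 : (fun i => (Bsub k T).incl (wd k ((u i).1 0 0) ((u i).1 0 1) ((u i).1 1 0)
        (a 0) (a 1))) = fun i => LieDerivation.ad k (RF k T)
          ((u i).1 0 0 • m1 + ((u i).1 0 1 / 2) • m2 - ((u i).1 1 0 / 2) • m3) := by
      funext i
      simp only [wd, map_add, map_sub, map_smul, ← hm1, ← hm2, ← hm3]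
      rfl
    rw [h2, ← hom_lift, sat_RF k T f hf, map_zero] at h1
    exact h1

theorem Bsub_two_gen [Infinite k] (T : Set (FreeLieAlgebra k ℕ)) :
    ∃ x y : Bsub k T, LieSubalgebra.lieSpan k (Bsub k T) {x, y} = ⊤ := by
  refine ⟨⟨shift k T, LieSubalgebra.subset_lieSpan (by simp)⟩, ⟨_, ad_gen_mem k T 0⟩, ?_⟩
  set x : Bsub k T := ⟨shift k T, LieSubalgebra.subset_lieSpan (by simp)⟩
  set y : Bsub k T := ⟨_, ad_gen_mem k T 0⟩
  rw [eq_top_iff]
  intro z _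
  have : Bsub k T ≤ (LieSubalgebra.lieSpan k (Bsub k T) {x, y}).map (Bsub k T).incl := by
    conv_lhs => rw [Bsub]
    rw [LieSubalgebra.lieSpan_le]
    rintro _ (rfl | rfl)
    · exact ⟨x, LieSubalgebra.subset_lieSpan (by simp), rfl⟩
    · exact ⟨y, LieSubalgebra.subset_lieSpan (by simp), rfl⟩
  obtain ⟨w, hw, hwz⟩ := this z.2
  have : w = z := Subtype.ext hwz
  rw [← this]
  exact hw

end Pool.Agent.Lib.MP_eb02d8_al
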